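import Pool.Agent.Run7.h46.S.Final

open FirstOrder FirstOrder.Language Run7.h46

/-- Let `K` be the age of a countable structure in a finite relational language. There are
continuum many pairwise non-elementarily equivalent countable structures of age `K` if and only if
`K` is not cellular. -/
theorem Pool.Agent.Results.MP_9a84bf_lc.Answer.result
    (L : FirstOrder.Language.{0, 0}) [L.IsRelational] [Finite L.Symbols]
    (K : Set (CategoryTheory.Bundled.{0} L.Structure))
    (hK : ∃ (M : Type) (_ : L.Structure M), Countable M ∧ L.age M = K) :
    (∃ (N : Set ℕ → Type) (str : ∀ S, L.Structure (N S)), (∀ S, Countable (N S)) ∧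
      (∀ S, @Language.age L (N S) (str S) = K) ∧
      ∀ S S', S ≠ S' →
        ¬ @Language.ElementarilyEquivalent L (N S) (N S') (str S) (str S')) ↔
    ¬ CellularAge L K :=
  Run7.h46.S.main_theorem L K hK
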